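import Mathlib
import Pool.Agent.TH53.BL17

set_option autoImplicit false

/-!
# Translates of subtori by points with radical coordinates, over any base field which contains all
roots of unity

All fields are subfields of `AlgebraicClosure ℚ`. The field `F` is arbitrary, for example the field
generated over a number field by any group of points which contains the torsion points.
-/

namespace Pool.Agent.Results.MP_187c26_nt.AnyBaseField

open Pool.Agent.H58P (Qb ht)
open Pool.Agent.H58R (ht_nonneg ht_zpow ht_prod_le)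
open Pool.Agent.W237.RK
open Pool.Agent.TH53.RP
open Pool.Agent.TH53.BL

/-- `θ` is a radical over `F`: a positive power of `θ` lies in `F` -/
def IsRadical (F : IntermediateField ℚ (AlgebraicClosure ℚ)) (θ : AlgebraicClosure ℚ) : Prop :=
  ∃ m : ℕ, 0 < m ∧ θ ^ m ∈ F

/-- `α` is the quotient of a sum of `k` radicals over `F` by a nonzero sum of `l` radicals over
`F`, where `k + l` is at most `N` -/
def IsQuotientOfSumsOfRadicals (F : IntermediateField ℚ (AlgebraicClosure ℚ)) (N : ℕ)
    (α : AlgebraicClosure ℚ) : Prop :=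
  ∃ (k l : ℕ) (θ : Fin k → AlgebraicClosure ℚ) (θ' : Fin l → AlgebraicClosure ℚ), k + l ≤ N ∧
    (∀ j, IsRadical F (θ j)) ∧ (∀ j, IsRadical F (θ' j)) ∧ ∑ j, θ' j ≠ 0 ∧
    α = (∑ j, θ j) / ∑ j, θ' j

/-- the translate by the point `x` of the subtorus which consists of the points
`(t^(a_1), ..., t^(a_n))`, where `t^(a_i)` is the product of the `t_j^(a_ij)` -/
def translate {n d : ℕ} (x : Fin n → AlgebraicClosure ℚ) (a : Fin n → Fin d → ℤ) :
    Set (Fin n → AlgebraicClosure ℚ) :=
  {y | ∃ t : Fin d → (AlgebraicClosure ℚ)ˣ,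
    ∀ i, y i = x i * ∏ j, (t j : AlgebraicClosure ℚ) ^ a i j}

/-- `(2^(N^2 + 1) 2 N!)^(N (N + 1))` -/
def bound (N : ℕ) : ℕ := (2 ^ (N ^ 2 + 1) * (2 * N.factorial)) ^ (N * (N + 1))

/-- **Translates with radical coordinates over any base field.** Let `F` be any algebraic extension
of `ℚ` which contains all roots of unity, and let `V` be the translate of a subtorus by a point
`x = (x_1, ..., x_n)` of the torus such that every `x_i` is a radical over `F`, or the `i`-th
coordinate is constant on `V` and `x_i` is the quotient of sums of radicals over `F` with at most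
`N` radicals. Put `B = bound(N)`. Let `P` be a nonzero polynomial with coefficients in `F` which
vanishes on `V`. Then the sum of the `deg_i(P) h(y_i)` is at least `1 / B` for every point `y` of
`V`, or there is a nonzero exponent `w` with `|w_i| ≤ deg_i(P)` such that the monomial `y^w` is
constant on `V`, has degree at most `B^n` over `F`, and the sum of the `deg_i(P) h(y_i)` is at least
the height of this constant for every point `y` of `V`. -/
theorem result (F : IntermediateField ℚ (AlgebraicClosure ℚ))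
    (hF : ∀ ζ : AlgebraicClosure ℚ, (∃ m : ℕ, 0 < m ∧ ζ ^ m = 1) → ζ ∈ F) (n d N : ℕ)
    (x : Fin n → AlgebraicClosure ℚ) (a : Fin n → Fin d → ℤ) (hx0 : ∀ i, x i ≠ 0)
    (hx : ∀ i, IsRadical F (x i) ∨ (a i = 0 ∧ IsQuotientOfSumsOfRadicals F N (x i)))
    (P : MvPolynomial (Fin n) F) (hP : P ≠ 0)
    (hV : ∀ y ∈ translate x a, MvPolynomial.aeval y P = 0) :
    (∀ y ∈ translate x a,
        1 / (bound N : ℝ) ≤ ∑ i, (P.degreeOf i : ℝ) * NumberField.absLogHeight₁ (y i)) ∨
      ∃ w : Fin n → ℤ, w ≠ 0 ∧ (∀ i, |w i| ≤ (P.degreeOf i : ℤ)) ∧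
        (∀ y ∈ translate x a, ∏ i, y i ^ w i = ∏ i, x i ^ w i) ∧
        (minpoly F (∏ i, x i ^ w i)).natDegree ≤ bound N ^ n ∧
        ∀ y ∈ translate x a, NumberField.absLogHeight₁ (∏ i, x i ^ w i) ≤
          ∑ i, (P.degreeOf i : ℝ) * NumberField.absLogHeight₁ (y i) := by
  have hb : bound N = B2 N := rfl
  have hht : ∀ w : AlgebraicClosure ℚ, NumberField.absLogHeight₁ w = ht w := fun w =>
    Pool.Agent.H58P.absLogHeight₁_eq _
  simp only [hht]
  have hterm : ∀ (y : Fin n → AlgebraicClosure ℚ) i, 0 ≤ (P.degreeOf i : ℝ) * ht (y i) :=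
    fun y i => mul_nonneg (Nat.cast_nonneg _) (ht_nonneg _)
  rcases main6 F hF x a (fun i => by
      rcases hx i with h | ⟨hai, k, l, θ, θ', hkl, hθ, hθ', hQ, hquot⟩
      · exact Or.inl h
      · exact Or.inr ⟨hai, k, l, θ, θ', hkl, hθ, hθ', by rw [hquot, div_mul_cancel₀ _ hQ], hQ⟩)
      hx0 P hP (fun t => hV _ ⟨t, fun _ => rfl⟩) with ⟨i, hi, hai, hhi⟩ | ⟨w, hw0, hw, hwa, hdeg⟩
  · left
    rintro y ⟨t, hyt⟩
    have hyi : y i = x i := by
      rw [hyt i, hai]
      simp
    have h1 : (P.degreeOf i : ℝ) * ht (y i) ≤ ∑ i, (P.degreeOf i : ℝ) * ht (y i) :=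
      Finset.single_le_sum (fun i _ => hterm y i) (Finset.mem_univ i)
    refine le_trans ?_ h1
    rw [hyi, hb, one_div]
    have h3 : (1 : ℝ) ≤ P.degreeOf i := by exact_mod_cast hi
    have h4 := ht_nonneg (x i)
    nlinarith
  · right
    have hconst : ∀ y ∈ translate x a, ∏ i, y i ^ w i = ∏ i, x i ^ w i := by
      rintro y ⟨t, hyt⟩
      have h1 := mon_translate x a t w
      rw [Finset.prod_congr rfl fun i _ => by rw [hyt i], h1, tchar_apply]
      simp only [hwa, zpow_zero, Finset.prod_const_one, mul_one]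
    refine ⟨w, hw0, hw, hconst, hdeg, ?_⟩
    intro y hy
    rw [← hconst y hy]
    have hy0 : ∀ i, y i ≠ 0 := by
      obtain ⟨t, hyt⟩ := hy
      intro i
      rw [hyt i]
      exact mul_ne_zero (hx0 i)
        (Finset.prod_ne_zero_iff.mpr fun j _ => zpow_ne_zero _ (t j).ne_zero)
    refine (ht_prod_le _ _).trans (Finset.sum_le_sum fun i _ => ?_)
    rw [ht_zpow _ (hy0 i)]
    apply mul_le_mul_of_nonneg_right _ (ht_nonneg _)
    have h5 := hw i
    exact_mod_cast h5

end Pool.Agent.Results.MP_187c26_nt.AnyBaseField
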