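import Mathlib
import Pool.Agent.H58R.Loc

set_option autoImplicit false

/-!
# A subgroup of finite rank of `G_m^2` which is not a Lehmer group

Points of `G_m^n` over the algebraic closure of `ℚ` form the type `Torus n`, which carries the
Zariski topology. Number fields are intermediate fields of `AlgebraicClosure ℚ` over `ℚ`.
-/

namespace Pool.Agent.Results.MP_187c26_nt.NotLehmer

open Filter Topology

/-- The group `G_m^n` of points over the algebraic closure of `ℚ`. -/
def Torus (n : ℕ) : Type := Fin n → (AlgebraicClosure ℚ)ˣ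

/-- Multiplication of points of `G_m^n` is coordinatewise. -/
noncomputable instance (n : ℕ) : CommGroup (Torus n) :=
  inferInstanceAs (CommGroup (Fin n → (AlgebraicClosure ℚ)ˣ))

/-- The coordinates of a point of `G_m^n`. -/
def coord {n : ℕ} (x : Torus n) (i : Fin n) : AlgebraicClosure ℚ :=
  ((x i : (AlgebraicClosure ℚ)ˣ) : AlgebraicClosure ℚ)

/-- The common zeros in `G_m^n` of a set of polynomials. -/
def zeros {n : ℕ} (S : Set (MvPolynomial (Fin n) (AlgebraicClosure ℚ))) : Set (Torus n) :=
  {x | ∀ f ∈ S, MvPolynomial.eval (coord x) f = 0}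

/-- The Zariski topology of `G_m^n`: the closed sets are the zero sets of polynomials. -/
noncomputable instance zariski (n : ℕ) : TopologicalSpace (Torus n) :=
  TopologicalSpace.ofClosed (Set.range (zeros (n := n)))
    (by
      refine ⟨{1}, ?_⟩
      ext x
      simp [zeros])
    (by
      intro A hA
      refine ⟨{f | ∀ x ∈ ⋂₀ A, MvPolynomial.eval (coord x) f = 0}, ?_⟩
      ext x
      constructor
      · intro hx Z hZ
        obtain ⟨S, rfl⟩ := hA hZ
        intro f hf
        exact hx f (fun y hy => hy _ hZ f hf)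
      · intro hx f hf
        exact hf x hx)
    (by
      rintro _ ⟨S, rfl⟩ _ ⟨T, rfl⟩
      refine ⟨{h | ∃ f ∈ S, ∃ g ∈ T, h = f * g}, ?_⟩
      ext x
      constructor
      · intro hx
        by_contra hcon
        simp only [Set.mem_union, not_or] at hcon
        obtain ⟨h1, h2⟩ := hcon
        have h1' : ∃ f ∈ S, MvPolynomial.eval (coord x) f ≠ 0 := by
          by_contra h
          push Not at h
          exact h1 h
        have h2' : ∃ f ∈ T, MvPolynomial.eval (coord x) f ≠ 0 := by
          by_contra h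
          push Not at h
          exact h2 h
        obtain ⟨f, hf, hf0⟩ := h1'
        obtain ⟨g, hg, hg0⟩ := h2'
        have := hx (f * g) ⟨f, hf, g, hg, rfl⟩
        rw [map_mul] at this
        exact mul_ne_zero hf0 hg0 this
      · rintro (hx | hx) _ ⟨f, hf, g, hg, rfl⟩
        · rw [map_mul, hx f hf, zero_mul]
        · rw [map_mul, hx g hg, mul_zero])

/-- `Z` is defined over the field `L`: it is the zero set of polynomials with coefficients
in `L`. -/
def DefinedOver {n : ℕ} (L : IntermediateField ℚ (AlgebraicClosure ℚ)) (Z : Set (Torus n)) :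
    Prop :=
  ∃ S : Set (MvPolynomial (Fin n) (AlgebraicClosure ℚ)),
    (∀ f ∈ S, ∀ m, MvPolynomial.coeff m f ∈ L) ∧ zeros S = Z

/-- The dimension of a subset of `G_m^n`: the Krull dimension of its Zariski topology. -/
noncomputable def dim {n : ℕ} (Z : Set (Torus n)) : ℕ :=
  ((topologicalKrullDim Z).unbotD 0).toNat

/-- All irreducible components of `Z` have the same dimension. -/
def Equidimensional {n : ℕ} (Z : Set (Torus n)) : Prop :=
  ∀ C ∈ irreducibleComponents Z, topologicalKrullDim C = topologicalKrullDim Z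

/-- Restriction of polynomials to functions on `Z`. -/
noncomputable def restrict {n : ℕ} (Z : Set (Torus n)) :
    MvPolynomial (Fin n) (AlgebraicClosure ℚ) →ₗ[AlgebraicClosure ℚ] (Z → AlgebraicClosure ℚ) :=
  LinearMap.pi fun z => (MvPolynomial.aeval (coord z.1)).toLinearMap

/-- The dimension of the space of restrictions to `Z` of the polynomials of degree at most `k` in
each of the `n` variables, that is, of the sections of `O(k, …, k)` on `(ℙ¹)^n`. -/
noncomputable def hilbert {n : ℕ} (Z : Set (Torus n)) (k : ℕ) : ℕ :=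
  Module.finrank (AlgebraicClosure ℚ)
    ((MvPolynomial.restrictDegree (Fin n) (AlgebraicClosure ℚ) k).map (restrict Z))

/-- `δ` is the degree of `Z` with respect to `O(1, …, 1)` on `(ℙ¹)^n`: with `d = dim Z`, the
Hilbert function of `Z` is asymptotic to `δ k^d / d!`. -/
def HasDegree {n : ℕ} (Z : Set (Torus n)) (δ : ℝ) : Prop :=
  Tendsto (fun k : ℕ => (Nat.factorial (dim Z) : ℝ) * hilbert Z k / (k : ℝ) ^ dim Z) atTop (𝓝 δ)

/-- The obstruction index `ω_L(V)`: the infimum of `deg(Z)^{1 / (n - dim Z)}` over the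
equidimensional closed `Z ≠ G_m^n` defined over `L` which contain `V`. -/
noncomputable def obstructionIndex {n : ℕ} (L : IntermediateField ℚ (AlgebraicClosure ℚ))
    (V : Set (Torus n)) : ℝ :=
  sInf {w : ℝ | ∃ (Z : Set (Torus n)) (δ : ℝ), IsClosed Z ∧ Z ≠ Set.univ ∧ Equidimensional Z ∧
    DefinedOver L Z ∧ V ⊆ Z ∧ HasDegree Z δ ∧ w = δ ^ (1 / ((n : ℝ) - dim Z))}

/-- The canonical height on `G_m^n`: the sum of the absolute logarithmic Weil heights of the
coordinates. -/
noncomputable def height {n : ℕ} (x : Torus n) : ℝ :=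
  ∑ i, NumberField.absLogHeight₁ (coord x i)

/-- The essential minimum of `V`: the infimum of the real numbers `θ` such that the points of `V`
of height at most `θ` are Zariski dense in `V`. -/
noncomputable def essentialMinimum {n : ℕ} (V : Set (Torus n)) : ℝ :=
  sInf {θ : ℝ | V ⊆ closure {x | x ∈ V ∧ height x ≤ θ}}

/-- A subvariety: an irreducible closed subset. -/
def IsSubvariety {n : ℕ} (V : Set (Torus n)) : Prop := IsClosed V ∧ IsIrreducible V

/-- The saturation of a subgroup: the points with a positive power in it. -/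
def saturation {n : ℕ} (Γ : Subgroup (Torus n)) : Set (Torus n) := {x | ∃ m : ℕ, 0 < m ∧ x ^ m ∈ Γ}

/-- `K(Γ)`, the field generated over `K` by the coordinates of the points of `Γ`. -/
noncomputable def coordField {n : ℕ} (K : IntermediateField ℚ (AlgebraicClosure ℚ))
    (Γ : Subgroup (Torus n)) : IntermediateField ℚ (AlgebraicClosure ℚ) :=
  K ⊔ IntermediateField.adjoin ℚ {y | ∃ g ∈ Γ, ∃ i, y = coord g i}

/-- A `Γ`-torsion subvariety: a translate of a connected algebraic subgroup by a point of the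
saturation of `Γ`. -/
def IsTorsionSubvariety {n : ℕ} (Γ : Subgroup (Torus n)) (T : Set (Torus n)) : Prop :=
  ∃ B : Subgroup (Torus n), IsClosed (B : Set (Torus n)) ∧ IsConnected (B : Set (Torus n)) ∧
    ∃ γ ∈ saturation Γ, T = {x | ∃ b ∈ B, x = γ * b}

/-- `V` is `Γ`-transverse: no proper `Γ`-torsion subvariety contains it. -/
def Transverse {n : ℕ} (Γ : Subgroup (Torus n)) (V : Set (Torus n)) : Prop :=
  ∀ T : Set (Torus n), IsTorsionSubvariety Γ T → T ≠ Set.univ → ¬ V ⊆ T

/-- `Γ` has finite rank: `Γ ⊗ ℚ` is finite dimensional. -/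
def FiniteRank {n : ℕ} (Γ : Subgroup (Torus n)) : Prop :=
  Module.Finite ℚ (TensorProduct ℤ ℚ (Additive Γ))

/-- `Γ` is a Lehmer group over `K`: `ω_{K(Γ)}(V) μ_ess(V) ≥ c` for all `Γ`-transverse proper
subvarieties `V`, with a positive constant `c`. -/
def IsLehmerGroup {n : ℕ} (K : IntermediateField ℚ (AlgebraicClosure ℚ))
    (Γ : Subgroup (Torus n)) : Prop :=
  ∃ c : ℝ, 0 < c ∧ ∀ V : Set (Torus n), IsSubvariety V → V ≠ Set.univ → Transverse Γ V →
    c ≤ obstructionIndex (coordField K Γ) V * essentialMinimum V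

/-! ### The Zariski topology -/

lemma isClosed_iff {n : ℕ} (Z : Set (Torus n)) : IsClosed Z ↔ ∃ S, zeros S = Z := by
  rw [← isOpen_compl_iff]
  show Zᶜᶜ ∈ Set.range (zeros (n := n)) ↔ _
  rw [compl_compl]
  rfl

lemma coord_ne_zero {n : ℕ} (x : Torus n) (i : Fin n) : coord x i ≠ 0 := Units.ne_zero _

lemma coord_mul {n : ℕ} (x y : Torus n) (i : Fin n) : coord (x * y) i = coord x i * coord y i := by
  show (((x * y : Torus n) i : (AlgebraicClosure ℚ)ˣ) : AlgebraicClosure ℚ) = _
  exact Units.val_mul _ _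

lemma coord_pow {n : ℕ} (x : Torus n) (m : ℕ) (i : Fin n) : coord (x ^ m) i = coord x i ^ m := by
  show (((x ^ m : Torus n) i : (AlgebraicClosure ℚ)ˣ) : AlgebraicClosure ℚ) = _
  exact Units.val_pow_eq_pow_val _ _

lemma coord_one {n : ℕ} (i : Fin n) : coord (1 : Torus n) i = 1 := rfl

lemma coord_injective {n : ℕ} : Function.Injective (coord (n := n)) := by
  intro x y h
  funext i
  exact Units.ext (congrFun h i)

lemma isClosed_singleton' {n : ℕ} (x : Torus n) : IsClosed ({x} : Set (Torus n)) := by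
  rw [isClosed_iff]
  refine ⟨{f | ∃ i, f = MvPolynomial.X i - MvPolynomial.C (coord x i)}, ?_⟩
  ext y
  constructor
  · intro hy
    apply coord_injective
    funext i
    have := hy _ ⟨i, rfl⟩
    simpa [sub_eq_zero] using this
  · rintro rfl f ⟨i, rfl⟩
    simp

/-! ### Proper closed subgroups lie in the kernel of a character -/

/-- the monomial `m` as a character -/
noncomputable def chi {n : ℕ} (B : Subgroup (Torus n)) (m : Fin n →₀ ℕ) :
    B →* AlgebraicClosure ℚ where
  toFun b := ∏ i, coord b.1 i ^ m i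
  map_one' := by simp [coord_one]
  map_mul' x y := by
    simp only [Subgroup.coe_mul, coord_mul, mul_pow, Finset.prod_mul_distrib]

lemma exists_char {n : ℕ} (B : Subgroup (Torus n)) (hB : IsClosed (B : Set (Torus n)))
    (hne : (B : Set (Torus n)) ≠ Set.univ) :
    ∃ m m' : Fin n →₀ ℕ, m ≠ m' ∧ ∀ b ∈ B, ∏ i, coord b i ^ m i = ∏ i, coord b i ^ m' i := by
  classical
  rw [isClosed_iff] at hB
  obtain ⟨S, hS⟩ := hB
  have h1 : ∃ y : Torus n, y ∉ (B : Set (Torus n)) := by
    by_contra h
    push Not at h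
    exact hne (Set.eq_univ_of_forall h)
  obtain ⟨y, hy⟩ := h1
  rw [← hS] at hy
  have h2 : ∃ f ∈ S, MvPolynomial.eval (coord y) f ≠ 0 := by
    by_contra h
    push Not at h
    exact hy h
  obtain ⟨f, hf, hfy⟩ := h2
  have hf0 : f ≠ 0 := by
    rintro rfl
    exact hfy (map_zero _)
  by_contra hcon
  push Not at hcon
  have hinj : Function.Injective (fun m : Fin n →₀ ℕ => chi B m) := by
    intro m m' h
    by_contra hmm
    obtain ⟨b, hb, hbne⟩ := hcon m m' hmm
    exact hbne (DFunLike.congr_fun h ⟨b, hb⟩)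
  have hli := (linearIndependent_monoidHom B (AlgebraicClosure ℚ)).comp _ hinj
  rw [linearIndependent_iff'] at hli
  have h3 := hli f.support (fun m => MvPolynomial.coeff m f) (by
    funext b
    have hb : (b : Torus n) ∈ zeros S := by
      rw [hS]
      exact b.2
    have := hb f hf
    rw [MvPolynomial.eval_eq'] at this
    simpa [chi] using this)
  apply hf0
  ext m
  by_cases hm : m ∈ f.support
  · rw [h3 m hm, MvPolynomial.coeff_zero]
  · rw [MvPolynomial.notMem_support_iff.mp hm, MvPolynomial.coeff_zero]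

/-! ### The curve `x_1 = b` in `G_m^2` -/

/-- the curve `x_1 = b` -/
def curve (b : AlgebraicClosure ℚ) : Set (Torus 2) := {x | coord x 1 = b}

lemma curve_eq (b : AlgebraicClosure ℚ) :
    zeros {MvPolynomial.X 1 - MvPolynomial.C b} = curve b := by
  ext x
  simp [zeros, curve, sub_eq_zero]

/-- the point `(u, v)` -/
def pt (u v : (AlgebraicClosure ℚ)ˣ) : Torus 2 := fun i => if i = 0 then u else v

lemma coord_pt_zero (u v : (AlgebraicClosure ℚ)ˣ) : coord (pt u v) 0 = u := rfl

lemma coord_pt_one (u v : (AlgebraicClosure ℚ)ˣ) : coord (pt u v) 1 = v := rfl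

lemma torus_ext {x y : Torus 2} (h0 : coord x 0 = coord y 0) (h1 : coord x 1 = coord y 1) :
    x = y := by
  apply coord_injective
  funext i
  fin_cases i
  · exact h0
  · exact h1

/-- a polynomial restricted to the curve is a polynomial in `x_0` -/
noncomputable def sub1 (b : AlgebraicClosure ℚ) (f : MvPolynomial (Fin 2) (AlgebraicClosure ℚ)) :
    Polynomial (AlgebraicClosure ℚ) :=
  MvPolynomial.aeval (fun i : Fin 2 => if i = 0 then Polynomial.X else Polynomial.C b) f

lemma eval_sub1 (b : AlgebraicClosure ℚ) (f : MvPolynomial (Fin 2) (AlgebraicClosure ℚ))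
    (x : Torus 2) (hx : x ∈ curve b) :
    (sub1 b f).eval (coord x 0) = MvPolynomial.eval (coord x) f := by
  unfold sub1
  rw [← Polynomial.coe_aeval_eq_eval, ← MvPolynomial.coe_aeval_eq_eval]
  have : (Polynomial.aeval (coord x 0)).comp
      (MvPolynomial.aeval (fun i : Fin 2 => if i = 0 then Polynomial.X else Polynomial.C b)) =
      (MvPolynomial.aeval (coord x) :
        MvPolynomial (Fin 2) (AlgebraicClosure ℚ) →ₐ[AlgebraicClosure ℚ] AlgebraicClosure ℚ) := by
    apply MvPolynomial.algHom_ext
    intro i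
    fin_cases i
    · simp
    · simp only [AlgHom.comp_apply, MvPolynomial.aeval_X]
      simp
      exact hx.symm
  exact DFunLike.congr_fun this f

/-- a closed subset of the curve is finite or the whole curve -/
lemma closed_curve (b : AlgebraicClosure ℚ) (A : Set (Torus 2)) (hA : IsClosed A) :
    curve b ⊆ A ∨ (A ∩ curve b).Finite := by
  classical
  rw [isClosed_iff] at hA
  obtain ⟨S, rfl⟩ := hA
  by_cases h : ∀ f ∈ S, sub1 b f = 0
  · left
    intro x hx f hf
    rw [← eval_sub1 b f x hx, h f hf, Polynomial.eval_zero]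
  · right
    push Not at h
    obtain ⟨f, hf, hf0⟩ := h
    have h1 : ((sub1 b f).roots.toFinset : Set (AlgebraicClosure ℚ)).Finite :=
      Finset.finite_toSet _
    refine Set.Finite.of_finite_image (f := fun x => coord x 0) (h1.subset ?_) ?_
    · rintro _ ⟨x, ⟨hx, hxc⟩, rfl⟩
      simp only [Finset.mem_coe, Multiset.mem_toFinset]
      rw [Polynomial.mem_roots hf0, Polynomial.IsRoot.def, eval_sub1 b f x hxc]
      exact hx f hf
    · rintro x ⟨_, hx⟩ y ⟨_, hy⟩ hxy
      exact torus_ext hxy (hx.trans hy.symm)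

lemma infinite_curve (b : (AlgebraicClosure ℚ)ˣ) : (curve (b : AlgebraicClosure ℚ)).Infinite := by
  have h : Function.Injective (fun u : (AlgebraicClosure ℚ)ˣ => pt u b) := by
    intro u v huv
    apply Units.ext
    exact congrArg (fun x => coord x 0) huv
  have hinf : Infinite (AlgebraicClosure ℚ)ˣ := by
    have h2 : Function.Injective (fun k : ℕ => Units.mk0 ((2 : AlgebraicClosure ℚ) ^ k)
        (pow_ne_zero k two_ne_zero)) := by
      intro k l hkl
      have h3 : (2 : AlgebraicClosure ℚ) ^ k = 2 ^ l := congrArg Units.val hkl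
      have h4 : ((2 ^ k : ℕ) : AlgebraicClosure ℚ) = ((2 ^ l : ℕ) : AlgebraicClosure ℚ) := by
        push_cast
        exact h3
      exact Nat.pow_right_injective (le_refl 2) (Nat.cast_injective h4)
    exact Infinite.of_injective _ h2
  refine (Set.infinite_range_of_injective h).mono ?_
  rintro _ ⟨u, rfl⟩
  exact coord_pt_one u b

lemma isIrreducible_curve (b : (AlgebraicClosure ℚ)ˣ) :
    IsIrreducible (curve (b : AlgebraicClosure ℚ)) := by
  refine ⟨(infinite_curve b).nonempty, ?_⟩
  rw [isPreirreducible_iff_isClosed_union_isClosed]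
  intro A B hA hB hAB
  rcases closed_curve b A hA with h | h
  · exact Or.inl h
  rcases closed_curve b B hB with h' | h'
  · exact Or.inr h'
  exfalso
  apply infinite_curve b
  refine (h.union h').subset ?_
  intro x hx
  rcases hAB hx with h1 | h1
  · exact Or.inl ⟨h1, hx⟩
  · exact Or.inr ⟨h1, hx⟩

/-- a finite irreducible set of points is a single point -/
lemma subsingleton_of_finite {X : Type} [TopologicalSpace X] (h1 : ∀ x : X, IsClosed ({x} : Set X))
    (C : Set X) (hC : IsIrreducible C) (hf : C.Finite) : C.Subsingleton := by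
  obtain ⟨x, hx⟩ := hC.1
  have h2 := (isPreirreducible_iff_isClosed_union_isClosed.mp hC.2) {x} (C \ {x}) (h1 x)
    (by
      rw [← Set.biUnion_of_singleton (C \ {x})]
      exact (hf.subset Set.sdiff_subset).isClosed_biUnion fun y _ => h1 y)
    (by
      intro y hy
      by_cases h : y = x
      · exact Or.inl h
      · exact Or.inr ⟨hy, h⟩)
  rcases h2 with h | h
  · exact (Set.subsingleton_singleton).anti h
  · exact absurd rfl (h hx).2

lemma krull_curve (b : (AlgebraicClosure ℚ)ˣ) :
    topologicalKrullDim (curve (b : AlgebraicClosure ℚ)) = 1 := by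
  have hT1 : ∀ x : curve (b : AlgebraicClosure ℚ),
      IsClosed ({x} : Set (curve (b : AlgebraicClosure ℚ))) := by
    intro x
    have : ({x} : Set (curve (b : AlgebraicClosure ℚ))) = Subtype.val ⁻¹' {x.1} := by
      ext y
      simp [Subtype.ext_iff]
    rw [this]
    exact (isClosed_singleton' x.1).preimage continuous_subtype_val
  have hcl : ∀ C : Set (curve (b : AlgebraicClosure ℚ)), IsClosed C → C = Set.univ ∨ C.Finite := by
    intro C hC
    obtain ⟨A, hA, rfl⟩ := isClosed_induced_iff.mp hC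
    rcases closed_curve b A hA with h | h
    · left
      ext x
      simp [h x.2]
    · right
      refine Set.Finite.of_finite_image (f := Subtype.val) (h.subset ?_)
        Subtype.val_injective.injOn
      rintro _ ⟨x, hx, rfl⟩
      exact ⟨hx, x.2⟩
  have hirr : IsIrreducible (Set.univ : Set (curve (b : AlgebraicClosure ℚ))) := by
    have := Subtype.irreducibleSpace (isIrreducible_curve b)
    exact IrreducibleSpace.isIrreducible_univ _
  unfold topologicalKrullDim
  apply le_antisymm
  · rw [Order.krullDim_le_one_iff]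
    intro C
    rcases hcl C.carrier C.isClosed' with h | h
    · right
      intro D _ x _
      show x ∈ C.carrier
      rw [h]
      trivial
    · left
      intro D hD x hx
      have hs := subsingleton_of_finite hT1 C.carrier C.isIrreducible' h
      obtain ⟨y, hy⟩ := D.isIrreducible'.1
      have h1 : x = y := hs hx (hD hy)
      rw [h1]
      exact hy
  · rw [Order.one_le_krullDim_iff]
    obtain ⟨x, hx⟩ := (infinite_curve b).nonempty
    refine ⟨⟨{⟨x, hx⟩}, isIrreducible_singleton, hT1 _⟩, ⟨Set.univ, hirr, isClosed_univ⟩, ?_⟩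
    refine lt_of_le_of_ne (fun y _ => trivial) ?_
    intro h
    have h1 : ({⟨x, hx⟩} : Set (curve (b : AlgebraicClosure ℚ))) = Set.univ :=
      congrArg TopologicalSpace.IrreducibleCloseds.carrier h
    have h2 : (Set.univ : Set (curve (b : AlgebraicClosure ℚ))).Finite := by
      rw [← h1]
      exact Set.finite_singleton _
    have h3 := Set.finite_univ_iff.mp h2
    exact infinite_curve b (Set.toFinite _)

lemma dim_curve (b : (AlgebraicClosure ℚ)ˣ) : dim (curve (b : AlgebraicClosure ℚ)) = 1 := by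
  unfold dim
  rw [krull_curve]
  rfl

lemma equidimensional_curve (b : (AlgebraicClosure ℚ)ˣ) :
    Equidimensional (curve (b : AlgebraicClosure ℚ)) := by
  intro C hC
  have := Subtype.irreducibleSpace (isIrreducible_curve b)
  rw [irreducibleComponents_eq_singleton, Set.mem_singleton_iff] at hC
  subst hC
  exact IsHomeomorph.topologicalKrullDim_eq _ (Homeomorph.Set.univ _).isHomeomorph

lemma restrict_apply {n : ℕ} (Z : Set (Torus n))
    (f : MvPolynomial (Fin n) (AlgebraicClosure ℚ)) (z : Z) :
    restrict Z f z = MvPolynomial.eval (coord z.1) f := by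
  show MvPolynomial.aeval (coord z.1) f = _
  rw [← MvPolynomial.coe_aeval_eq_eval]
  rfl

/-- the functions `x_0^j` on the curve -/
noncomputable def powFun (b : AlgebraicClosure ℚ) (j : ℕ) : curve b → AlgebraicClosure ℚ :=
  fun z => coord z.1 0 ^ j

lemma linearIndependent_powFun (b : (AlgebraicClosure ℚ)ˣ) (k : ℕ) :
    LinearIndependent (AlgebraicClosure ℚ)
      (fun j : Fin (k + 1) => powFun (b : AlgebraicClosure ℚ) j) := by
  classical
  rw [Fintype.linearIndependent_iff]
  intro g hg j
  set q : Polynomial (AlgebraicClosure ℚ) := ∑ j : Fin (k + 1), Polynomial.monomial j (g j) with hq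
  have h1 : q = 0 := by
    apply Polynomial.eq_zero_of_infinite_isRoot
    have h2 : ((fun x : Torus 2 => coord x 0) '' curve (b : AlgebraicClosure ℚ)).Infinite := by
      apply (infinite_curve b).image
      intro x hx y hy hxy
      exact torus_ext hxy (Eq.trans hx (Eq.symm hy))
    refine h2.mono ?_
    rintro _ ⟨x, hx, rfl⟩
    show q.eval (coord x 0) = 0
    have h3 := congrFun hg ⟨x, hx⟩
    simp only [Finset.sum_apply, Pi.smul_apply, Pi.zero_apply, smul_eq_mul, powFun] at h3
    rw [hq, Polynomial.eval_finsetSum]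
    simpa [Polynomial.eval_monomial] using h3
  have h4 : q.coeff j = g j := by
    rw [hq, Polynomial.finsetSum_coeff]
    simp only [Polynomial.coeff_monomial]
    rw [Finset.sum_eq_single j]
    · simp
    · intro i _ hij
      rw [if_neg]
      intro h
      exact hij (Fin.ext h)
    · simp
  rw [← h4, h1, Polynomial.coeff_zero]

lemma map_restrict_curve (b : (AlgebraicClosure ℚ)ˣ) (k : ℕ) :
    (MvPolynomial.restrictDegree (Fin 2) (AlgebraicClosure ℚ) k).map
      (restrict (curve (b : AlgebraicClosure ℚ))) =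
    Submodule.span (AlgebraicClosure ℚ)
      (Set.range (fun j : Fin (k + 1) => powFun (b : AlgebraicClosure ℚ) j)) := by
  apply le_antisymm
  · rintro _ ⟨f, hf, rfl⟩
    have hf' := (MvPolynomial.mem_restrictDegree (Fin 2) f k).mp hf
    have e : restrict (curve (b : AlgebraicClosure ℚ)) f =
        ∑ m ∈ f.support, (MvPolynomial.coeff m f * (b : AlgebraicClosure ℚ) ^ m 1) •
          powFun (b : AlgebraicClosure ℚ) (m 0) := by
      funext z
      rw [restrict_apply, MvPolynomial.eval_eq']
      simp only [Finset.sum_apply, Pi.smul_apply, smul_eq_mul, powFun, Fin.prod_univ_two]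
      refine Finset.sum_congr rfl fun m _ => ?_
      have hz : coord z.1 1 = b := z.2
      rw [hz]
      ring
    rw [e]
    refine Submodule.sum_mem _ fun m hm => Submodule.smul_mem _ _ (Submodule.subset_span ?_)
    exact ⟨⟨m 0, Nat.lt_succ_of_le (hf' m hm 0)⟩, rfl⟩
  · rw [Submodule.span_le]
    rintro _ ⟨j, rfl⟩
    refine ⟨MvPolynomial.X 0 ^ (j : ℕ), ?_, ?_⟩
    · show MvPolynomial.X 0 ^ (j : ℕ) ∈ MvPolynomial.restrictDegree (Fin 2) (AlgebraicClosure ℚ) k
      rw [MvPolynomial.mem_restrictDegree]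
      intro s hs i
      rw [MvPolynomial.support_X_pow, Finset.mem_singleton] at hs
      subst hs
      have hj : (j : ℕ) ≤ k := Nat.lt_succ_iff.mp j.2
      rw [Finsupp.single_apply]
      split_ifs
      · exact hj
      · exact Nat.zero_le k
    · funext z
      rw [restrict_apply]
      simp [powFun]

lemma hilbert_curve (b : (AlgebraicClosure ℚ)ˣ) (k : ℕ) :
    hilbert (curve (b : AlgebraicClosure ℚ)) k = k + 1 := by
  unfold hilbert
  rw [map_restrict_curve, finrank_span_eq_card (linearIndependent_powFun b k), Fintype.card_fin]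

lemma hasDegree_curve (b : (AlgebraicClosure ℚ)ˣ) : HasDegree (curve (b : AlgebraicClosure ℚ)) 1 := by
  unfold HasDegree
  rw [dim_curve]
  simp only [hilbert_curve, Nat.factorial_one, Nat.cast_one, one_mul, pow_one, Nat.cast_add]
  have h1 : Tendsto (fun k : ℕ => 1 + 1 / (k : ℝ)) atTop (𝓝 (1 + 0)) :=
    tendsto_const_nhds.add tendsto_one_div_atTop_nhds_zero_nat
  rw [add_zero] at h1
  refine h1.congr' ?_
  filter_upwards [eventually_gt_atTop 0] with k hk
  have : (k : ℝ) ≠ 0 := by positivity
  field_simp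

/-! ### The obstruction index and the essential minimum -/

lemma obstructionIndex_nonneg {n : ℕ} (L : IntermediateField ℚ (AlgebraicClosure ℚ))
    (V : Set (Torus n)) : 0 ≤ obstructionIndex L V := by
  apply Real.sInf_nonneg
  rintro w ⟨Z, δ, -, -, -, -, -, hδ, rfl⟩
  apply Real.rpow_nonneg
  exact ge_of_tendsto' hδ fun k => by positivity

lemma obstructionIndex_le_one (L : IntermediateField ℚ (AlgebraicClosure ℚ))
    (b : (AlgebraicClosure ℚ)ˣ) (hb : (b : AlgebraicClosure ℚ) ∈ L) (V : Set (Torus 2))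
    (hV : V ⊆ curve (b : AlgebraicClosure ℚ)) : obstructionIndex L V ≤ 1 := by
  apply csInf_le
  · refine ⟨0, ?_⟩
    rintro w ⟨Z, δ, -, -, -, -, -, hδ, rfl⟩
    apply Real.rpow_nonneg
    exact ge_of_tendsto' hδ fun k => by positivity
  · refine ⟨curve b, 1, (isClosed_iff _).mpr ⟨_, curve_eq b⟩, ?_, equidimensional_curve b,
      ⟨_, ?_, curve_eq b⟩, hV, hasDegree_curve b, (Real.one_rpow _).symm⟩
    · intro h
      have h1 : pt 1 (-b) ∈ curve (b : AlgebraicClosure ℚ) := by
        rw [h]
        trivial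
      have h2 : ((-b : (AlgebraicClosure ℚ)ˣ) : AlgebraicClosure ℚ) = b := h1
      rw [Units.val_neg, neg_eq_iff_add_eq_zero, ← two_mul] at h2
      exact b.ne_zero ((mul_eq_zero.mp h2).resolve_left two_ne_zero)
    · intro f hf m
      rw [Set.mem_singleton_iff] at hf
      subst hf
      rw [MvPolynomial.coeff_sub, MvPolynomial.coeff_X, MvPolynomial.coeff_C]
      apply sub_mem
      · split_ifs
        · exact one_mem L
        · exact zero_mem L
      · split_ifs
        · exact hb
        · exact zero_mem L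

lemma essentialMinimum_singleton {n : ℕ} (x : Torus n) :
    essentialMinimum ({x} : Set (Torus n)) = height x := by
  unfold essentialMinimum
  have : {θ : ℝ | ({x} : Set (Torus n)) ⊆ closure {y | y ∈ ({x} : Set (Torus n)) ∧ height y ≤ θ}} =
      Set.Ici (height x) := by
    ext θ
    constructor
    · intro h
      by_contra hlt
      have he : {y | y ∈ ({x} : Set (Torus n)) ∧ height y ≤ θ} = ∅ := by
        apply Set.eq_empty_of_forall_notMem
        rintro y ⟨hy, hy2⟩
        apply hlt
        rw [Set.mem_singleton_iff.mp hy] at hy2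
        exact hy2
      have h1 := h (Set.mem_singleton x)
      rw [he, closure_empty] at h1
      exact h1
    · intro h y hy
      apply subset_closure
      rw [Set.mem_singleton_iff.mp hy]
      exact ⟨rfl, h⟩
  rw [this, csInf_Ici]

/-! ### The division group of a cyclic group -/

/-- the points with a positive power in the cyclic group generated by `g` -/
def divGroup {n : ℕ} (g : Torus n) : Subgroup (Torus n) where
  carrier := {x | ∃ m : ℕ, 0 < m ∧ x ^ m ∈ Subgroup.zpowers g}
  mul_mem' := by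
    rintro x y ⟨m, hm, hx⟩ ⟨l, hl, hy⟩
    refine ⟨m * l, Nat.mul_pos hm hl, ?_⟩
    rw [mul_pow, pow_mul, mul_comm m l, pow_mul]
    exact mul_mem (pow_mem hx l) (pow_mem hy m)
  one_mem' := ⟨1, one_pos, by
    rw [one_pow]
    exact one_mem _⟩
  inv_mem' := by
    rintro x ⟨m, hm, hx⟩
    refine ⟨m, hm, ?_⟩
    rw [inv_pow]
    exact inv_mem hx

lemma finiteRank_divGroup {n : ℕ} (g : Torus n) : FiniteRank (divGroup g) := by
  have hg : g ∈ divGroup g := ⟨1, one_pos, by
    rw [pow_one]
    exact Subgroup.mem_zpowers g⟩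
  set e : TensorProduct ℤ ℚ (Additive (divGroup g)) :=
    TensorProduct.tmul ℤ (1 : ℚ) (Additive.ofMul (⟨g, hg⟩ : divGroup g)) with he
  refine ⟨⟨{e}, ?_⟩⟩
  rw [Finset.coe_singleton, eq_top_iff]
  rintro t -
  induction t using TensorProduct.induction_on with
  | zero => exact zero_mem _
  | add x y hx hy => exact add_mem hx hy
  | tmul q x =>
    obtain ⟨m, hm, hx⟩ := (Additive.toMul x).2
    obtain ⟨s, hs⟩ := Subgroup.mem_zpowers_iff.mp hx
    have h1 : (m : ℤ) • x = s • Additive.ofMul (⟨g, hg⟩ : divGroup g) := by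
      apply Additive.toMul.injective
      apply Subtype.ext
      rw [toMul_zsmul, toMul_zsmul, toMul_ofMul]
      show ((Additive.toMul x ^ (m : ℤ) : divGroup g) : Torus n) = ((⟨g, hg⟩ ^ s : divGroup g) : Torus n)
      rw [zpow_natCast]
      exact hs.symm
    have h2 : TensorProduct.tmul ℤ q x = (q / m * s) • e := by
      have hm0 : (m : ℚ) ≠ 0 := by positivity
      have h3 : q = (m : ℤ) • (q / m) := by
        rw [zsmul_eq_mul]
        push_cast
        field_simp
      have h4 : TensorProduct.tmul ℤ q x = TensorProduct.tmul ℤ (q / m) ((m : ℤ) • x) := by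
        conv_lhs => rw [h3]
        rw [TensorProduct.smul_tmul]
      rw [h4, h1, ← TensorProduct.smul_tmul, he, TensorProduct.smul_tmul', smul_eq_mul, mul_one,
        zsmul_eq_mul, mul_comm]
    rw [h2]
    exact Submodule.smul_mem _ _ (Submodule.mem_span_singleton_self e)

/-! ### The points `(3^{1/k}, 2^{1/k})` -/

/-- the number 2 as a unit -/
noncomputable def two : (AlgebraicClosure ℚ)ˣ := Units.mk0 2 two_ne_zero

lemma three_two {a b : ℤ} (h : (3 : ℚ) ^ a = 2 ^ b) : a = 0 ∧ b = 0 := by
  have h3 : Fact (Nat.Prime 3) := ⟨Nat.prime_three⟩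
  have h2 : Fact (Nat.Prime 2) := ⟨Nat.prime_two⟩
  have e1 := congrArg (padicValRat 3) h
  have e2 := congrArg (padicValRat 2) h
  rw [padicValRat.zpow, padicValRat.zpow] at e1 e2
  have v1 : padicValRat 3 3 = 1 := by
    have := padicValRat.self (p := 3) (by norm_num)
    exact_mod_cast this
  have v2 : padicValRat 2 2 = 1 := by
    have := padicValRat.self (p := 2) (by norm_num)
    exact_mod_cast this
  have v3 : padicValRat 3 2 = 0 := by
    have : padicValNat 3 2 = 0 := padicValNat.eq_zero_of_not_dvd (by norm_num)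
    have h := padicValRat.of_nat (p := 3) (n := 2)
    rw [this] at h
    exact_mod_cast h
  have v4 : padicValRat 2 3 = 0 := by
    have : padicValNat 2 3 = 0 := padicValNat.eq_zero_of_not_dvd (by norm_num)
    have h := padicValRat.of_nat (p := 2) (n := 3)
    rw [this] at h
    exact_mod_cast h
  rw [v1, v3] at e1
  rw [v2, v4] at e2
  constructor <;> linarith

lemma three_two' {a b : ℤ} (h : (3 : AlgebraicClosure ℚ) ^ a = 2 ^ b) : a = 0 ∧ b = 0 := by
  apply three_two
  apply (algebraMap ℚ (AlgebraicClosure ℚ)).injective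
  rw [map_zpow₀, map_zpow₀]
  simpa using h

lemma transverse_pt (k : ℕ) (hk : 0 < k) (u v : (AlgebraicClosure ℚ)ˣ)
    (hu : (u : AlgebraicClosure ℚ) ^ k = 3) (hv : (v : AlgebraicClosure ℚ) ^ k = 2) :
    Transverse (divGroup (pt two 1)) {pt u v} := by
  rintro T ⟨B, hB, -, γ, ⟨l, hl, m, hm, hγ⟩, rfl⟩ hT hV
  have hBne : (B : Set (Torus 2)) ≠ Set.univ := by
    intro h
    apply hT
    ext x
    simp only [Set.mem_ofPred_eq, Set.mem_univ, iff_true]
    refine ⟨γ⁻¹ * x, ?_, by group⟩
    have : γ⁻¹ * x ∈ (B : Set (Torus 2)) := by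
      rw [h]
      trivial
    exact this
  obtain ⟨r, r', hrr, hchi⟩ := exists_char B hB hBne
  obtain ⟨b, hb, hpt⟩ := hV (Set.mem_singleton _)
  obtain ⟨s, hs⟩ := Subgroup.mem_zpowers_iff.mp hγ
  have hN : 0 < l * m := Nat.mul_pos hl hm
  have hγN : γ ^ (l * m) = pt two 1 ^ s := by
    rw [pow_mul, hs]
  have c0 : coord γ 0 ^ (l * m) = 2 ^ s := by
    rw [← coord_pow, hγN]
    show (((pt two 1 ^ s : Torus 2) 0 : (AlgebraicClosure ℚ)ˣ) : AlgebraicClosure ℚ) = _
    exact Units.val_zpow_eq_zpow_val two s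
  have c1 : coord γ 1 ^ (l * m) = 1 := by
    rw [← coord_pow, hγN]
    show (((pt two 1 ^ s : Torus 2) 1 : (AlgebraicClosure ℚ)ˣ) : AlgebraicClosure ℚ) = _
    have : (pt two 1 ^ s : Torus 2) 1 = (1 : (AlgebraicClosure ℚ)ˣ) ^ s := rfl
    rw [this, one_zpow, Units.val_one]
  have hb0 : coord b 0 = u / coord γ 0 := by
    rw [eq_div_iff (coord_ne_zero _ _), mul_comm, ← coord_mul, ← hpt]
    rfl
  have hb1 : coord b 1 = v / coord γ 1 := by
    rw [eq_div_iff (coord_ne_zero _ _), mul_comm, ← coord_mul, ← hpt]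
    rfl
  have h1 := hchi b hb
  rw [Fin.prod_univ_two, Fin.prod_univ_two] at h1
  -- raise to the power `N k`
  set N := l * m with hNdef
  have hb0' : coord b 0 ^ (N * k) = 3 ^ (N : ℤ) * 2 ^ (-(s * k)) := by
    rw [hb0, div_pow, mul_comm N k, pow_mul (u : AlgebraicClosure ℚ), hu, mul_comm k N,
      pow_mul (coord γ 0), c0, zpow_neg, zpow_mul, zpow_natCast, zpow_natCast, div_eq_mul_inv]
  have hb1' : coord b 1 ^ (N * k) = 2 ^ (N : ℤ) := by
    rw [hb1, div_pow, mul_comm N k, pow_mul (v : AlgebraicClosure ℚ), hv, mul_comm k N,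
      pow_mul (coord γ 1), c1, one_pow, div_one, zpow_natCast]
  have h2 := congrArg (fun z => z ^ (N * k)) h1
  simp only [mul_pow] at h2
  rw [pow_right_comm, pow_right_comm (coord b 1), pow_right_comm (coord b 0) (r' 0),
    pow_right_comm (coord b 1) (r' 1), hb0', hb1'] at h2
  have h20 : (2 : AlgebraicClosure ℚ) ≠ 0 := two_ne_zero
  have h30 : (3 : AlgebraicClosure ℚ) ≠ 0 := three_ne_zero
  have hL : ∀ p q : ℕ, ((3 : AlgebraicClosure ℚ) ^ (N : ℤ) * 2 ^ (-(s * k))) ^ p *
      (2 ^ (N : ℤ)) ^ q = 3 ^ ((N : ℤ) * p) * 2 ^ (-(s * k) * p + (N : ℤ) * q) := by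
    intro p q
    rw [mul_pow, ← zpow_natCast, ← zpow_natCast _ p, ← zpow_natCast _ q, ← zpow_mul, ← zpow_mul,
      ← zpow_mul, zpow_add₀ h20, mul_assoc]
  rw [hL, hL] at h2
  have h3 : (3 : AlgebraicClosure ℚ) ^ ((N : ℤ) * (r 0 : ℤ) - (N : ℤ) * (r' 0 : ℤ)) =
      2 ^ ((-(s * k) * (r' 0 : ℤ) + (N : ℤ) * (r' 1 : ℤ)) -
        (-(s * k) * (r 0 : ℤ) + (N : ℤ) * (r 1 : ℤ))) := by
    rw [zpow_sub₀ h30, zpow_sub₀ h20, div_eq_div_iff (zpow_ne_zero _ h30) (zpow_ne_zero _ h20), h2]
    ring
  obtain ⟨h4, h5⟩ := three_two' h3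
  have hN' : (N : ℤ) ≠ 0 := by exact_mod_cast hN.ne'
  have h6 : (r 0 : ℤ) = r' 0 := by
    have : (N : ℤ) * ((r 0 : ℤ) - r' 0) = 0 := by linarith
    have := (mul_eq_zero.mp this).resolve_left hN'
    linarith
  rw [h6] at h5
  have h7 : (r 1 : ℤ) = r' 1 := by
    have : (N : ℤ) * ((r' 1 : ℤ) - r 1) = 0 := by linarith
    have := (mul_eq_zero.mp this).resolve_left hN'
    linarith
  apply hrr
  ext i
  fin_cases i
  · exact_mod_cast h6
  · exact_mod_cast h7

open Pool.Agent.H58P (ht) in
lemma height_pt (k : ℕ) (hk : 0 < k) (u v : (AlgebraicClosure ℚ)ˣ)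
    (hu : (u : AlgebraicClosure ℚ) ^ k = 3) (hv : (v : AlgebraicClosure ℚ) ^ k = 2) :
    height (pt u v) = (ht (3 : AlgebraicClosure ℚ) + ht (2 : AlgebraicClosure ℚ)) / k := by
  have hk' : (k : ℝ) ≠ 0 := by positivity
  unfold height
  rw [Fin.sum_univ_two, Pool.Agent.H58P.absLogHeight₁_eq, Pool.Agent.H58P.absLogHeight₁_eq,
    coord_pt_zero, coord_pt_one, eq_div_iff hk', ← hu, ← hv, Pool.Agent.H58B.ht_pow,
    Pool.Agent.H58B.ht_pow]
  ring

/-- **Negative answer to Q1 as posed.** Over every number field `K` there is a subgroup of finite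
rank of `G_m^2` which is not a Lehmer group: the group of all points of `G_m^2` having a positive
power in the cyclic group generated by `(2, 1)`. -/
theorem result (K : IntermediateField ℚ (AlgebraicClosure ℚ)) (hK : FiniteDimensional ℚ K) :
    ∃ Γ : Subgroup (Torus 2), FiniteRank Γ ∧ ¬ IsLehmerGroup K Γ := by
  refine ⟨divGroup (pt two 1), finiteRank_divGroup _, ?_⟩
  rintro ⟨c, hc, h⟩
  set C := Pool.Agent.H58P.ht (3 : AlgebraicClosure ℚ) + Pool.Agent.H58P.ht (2 : AlgebraicClosure ℚ)
    with hC
  obtain ⟨k, hk⟩ := exists_nat_gt (C / c)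
  have hk1 : 0 < k + 1 := Nat.succ_pos k
  obtain ⟨u', hu'⟩ := IsAlgClosed.exists_pow_nat_eq (3 : AlgebraicClosure ℚ) hk1
  obtain ⟨v', hv'⟩ := IsAlgClosed.exists_pow_nat_eq (2 : AlgebraicClosure ℚ) hk1
  have hu0 : u' ≠ 0 := by
    rintro rfl
    rw [zero_pow hk1.ne'] at hu'
    exact three_ne_zero hu'.symm
  have hv0 : v' ≠ 0 := by
    rintro rfl
    rw [zero_pow hk1.ne'] at hv'
    exact two_ne_zero hv'.symm
  set u := Units.mk0 u' hu0 with hu
  set v := Units.mk0 v' hv0 with hv
  have hvL : (v : AlgebraicClosure ℚ) ∈ coordField K (divGroup (pt two 1)) := by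
    refine (le_sup_right : _ ≤ coordField K (divGroup (pt two 1)))
      (IntermediateField.subset_adjoin _ _ ⟨pt v 1, ⟨k + 1, hk1, ?_⟩, 0, rfl⟩)
    have : pt v 1 ^ (k + 1) = pt two 1 := by
      apply torus_ext
      · rw [coord_pow, coord_pt_zero]
        exact hv'
      · rw [coord_pow, coord_pt_one, coord_pt_one, Units.val_one, one_pow]
    rw [this]
    exact Subgroup.mem_zpowers _
  have h1 := h {pt u v} ⟨isClosed_singleton' _, isIrreducible_singleton⟩
    (by
      intro he
      have : pt u (-v) ∈ ({pt u v} : Set (Torus 2)) := by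
        rw [he]
        trivial
      have h2 : ((-v : (AlgebraicClosure ℚ)ˣ) : AlgebraicClosure ℚ) = v :=
        congrArg (fun x => coord x 1) (Set.mem_singleton_iff.mp this)
      rw [Units.val_neg, neg_eq_iff_add_eq_zero, ← two_mul] at h2
      exact v.ne_zero ((mul_eq_zero.mp h2).resolve_left two_ne_zero))
    (transverse_pt (k + 1) hk1 u v hu' hv')
  rw [essentialMinimum_singleton, height_pt (k + 1) hk1 u v hu' hv', ← hC] at h1
  have h2 := obstructionIndex_le_one (coordField K (divGroup (pt two 1))) v hvL {pt u v}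
    (by
      rintro x hx
      rw [Set.mem_singleton_iff.mp hx]
      exact coord_pt_one u v)
  have hC0 : 0 ≤ C := add_nonneg (Pool.Agent.H58R.ht_nonneg _) (Pool.Agent.H58R.ht_nonneg _)
  have h3 : c ≤ C / ((k + 1 : ℕ) : ℝ) :=
    h1.trans (mul_le_of_le_one_left (by positivity) h2)
  rw [div_lt_iff₀ hc] at hk
  rw [le_div_iff₀ (by positivity)] at h3
  push_cast at h3
  nlinarith

end Pool.Agent.Results.MP_187c26_nt.NotLehmer
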