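import Mathlib
import Pool.Agent.TH53.BL15
import Pool.Agent.TH53.BL14

set_option autoImplicit false

/-!
# Rémond's inequality for translates of subtori by points with radical coordinates

All fields are subfields of `AlgebraicClosure ℚ`; `Γ` is a finitely generated subgroup of the unit
group of `AlgebraicClosure ℚ`, and the finite rank subgroups of the torus of dimension `n` are the
groups `Γ^n` and their division groups. The base field `L` is any subfield of the field generated
over a number field `K` by the division group of `Γ`.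
-/

namespace Pool.Agent.Results.MP_187c26_nt.PointsOfRadicals

open Pool.Agent.H58P (Qb ht)
open Pool.Agent.W237.RK
open Pool.Agent.TH53.RP
open Pool.Agent.TH53.BL

/-- `β` lies in the division group of `Γ`: a positive power of `β` is an element of `Γ` -/
def InDivisionGroup (Γ : Subgroup (AlgebraicClosure ℚ)ˣ) (β : AlgebraicClosure ℚ) : Prop :=
  ∃ m : ℕ, 0 < m ∧ ∃ g ∈ Γ, β ^ m = (g : AlgebraicClosure ℚ)

/-- the field generated by the division group of `Γ` -/
noncomputable def divisionField (Γ : Subgroup (AlgebraicClosure ℚ)ˣ) :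
    IntermediateField ℚ (AlgebraicClosure ℚ) :=
  IntermediateField.adjoin ℚ {y | InDivisionGroup Γ y}

/-- the field generated by all roots of unity -/
noncomputable def cyclotomicClosure : IntermediateField ℚ (AlgebraicClosure ℚ) :=
  IntermediateField.adjoin ℚ {y | ∃ m : ℕ, 0 < m ∧ y ^ m = 1}

/-- `θ` is a radical over `E`: a positive power of `θ` lies in `E` -/
def IsRadical (E : IntermediateField cyclotomicClosure (AlgebraicClosure ℚ))
    (θ : AlgebraicClosure ℚ) : Prop :=
  ∃ m : ℕ, 0 < m ∧ θ ^ m ∈ E

/-- `α` is the quotient of a sum of `k` radicals over `E` by a nonzero sum of `l` radicals over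
`E`, where `k + l` is at most `N` -/
def IsQuotientOfSumsOfRadicals
    (E : IntermediateField cyclotomicClosure (AlgebraicClosure ℚ)) (N : ℕ)
    (α : AlgebraicClosure ℚ) : Prop :=
  ∃ (k l : ℕ) (θ : Fin k → AlgebraicClosure ℚ) (θ' : Fin l → AlgebraicClosure ℚ), k + l ≤ N ∧
    (∀ j, IsRadical E (θ j)) ∧ (∀ j, IsRadical E (θ' j)) ∧ ∑ j, θ' j ≠ 0 ∧
    α = (∑ j, θ j) / ∑ j, θ' j

/-- the translate by the point `x` of the subtorus which consists of the points
`(t^(a_1), ..., t^(a_n))`, where `t^(a_i)` is the product of the `t_j^(a_ij)` -/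
def translate {n d : ℕ} (x : Fin n → AlgebraicClosure ℚ) (a : Fin n → Fin d → ℤ) :
    Set (Fin n → AlgebraicClosure ℚ) :=
  {y | ∃ t : Fin d → (AlgebraicClosure ℚ)ˣ,
    ∀ i, y i = x i * ∏ j, (t j : AlgebraicClosure ℚ) ^ a i j}

/-- the translate lies in the torus, and no monomial with nonzero exponent is constant on it with
value in the division group of `Γ` -/
def IsTransverse (Γ : Subgroup (AlgebraicClosure ℚ)ˣ) {n d : ℕ}
    (x : Fin n → AlgebraicClosure ℚ) (a : Fin n → Fin d → ℤ) : Prop :=
  (∀ i, x i ≠ 0) ∧ ∀ v : Fin n → ℤ, (∀ j, ∑ i, v i * a i j = 0) →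
    InDivisionGroup Γ (∏ i, x i ^ v i) → v = 0

/-- `(2^(N^2 + 1) 2 N!)^(N (N + 1))` -/
def bound (N : ℕ) : ℕ := (2 ^ (N ^ 2 + 1) * (2 * N.factorial)) ^ (N * (N + 1))

/-- **Rémond's inequality for translates of subtori by points with radical coordinates.**
Let `K` be a number field and `Γ` a finitely generated group of nonzero algebraic numbers. There is
a positive integer `A`, depending only on `K` and `Γ`, with the following properties. Let `E` be an
extension of degree at most `D` of the field generated by all roots of unity, and let `V` be the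
translate of a subtorus of the torus of dimension `n ≥ 2` by a point `x = (x_1, ..., x_n)` such that
every `x_i` is a radical over `E`, or the `i`-th coordinate is constant on `V` and `x_i` is the
quotient of sums of radicals over `E` with at most `N` radicals. Let `V` be transverse. Put `c = 1 / (A (D bound(N)^n)^A)` (and
`bound(0) = 1`, for points with radical coordinates). Let `L` be any subfield of the field generated
over `K` by the division group of `Γ`. Then

* (hypersurfaces over `L` which contain `V`) for every nonzero polynomial `P` with coefficients in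
  `L` which vanishes on `V` and for every point `y` of `V`, the sum of the `deg_i(P) h(y_i)` is at
  least `c`;
* (finite sets over `L` which contain `V`) if `V` is the point `x`, the product of the `h(x_i)` is
  at least `(c / n)^n` divided by the degree of `L(x_1, ..., x_n)` over `L`. -/
theorem result :
    ∀ (K : IntermediateField ℚ (AlgebraicClosure ℚ)), FiniteDimensional ℚ K →
      ∀ (Γ : Subgroup (AlgebraicClosure ℚ)ˣ), Γ.FG → ∃ A : ℕ, 0 < A ∧
      ∀ (n d N D : ℕ) (E : IntermediateField cyclotomicClosure (AlgebraicClosure ℚ)), 2 ≤ n →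
        FiniteDimensional cyclotomicClosure E → Module.finrank cyclotomicClosure E ≤ D →
        ∀ (x : Fin n → AlgebraicClosure ℚ) (a : Fin n → Fin d → ℤ),
          (∀ i, IsRadical E (x i) ∨ (a i = 0 ∧ IsQuotientOfSumsOfRadicals E N (x i))) →
          IsTransverse Γ x a →
          ∀ L : IntermediateField ℚ (AlgebraicClosure ℚ), L ≤ K ⊔ divisionField Γ →
            (∀ P : MvPolynomial (Fin n) L, P ≠ 0 →
              (∀ y ∈ translate x a, MvPolynomial.aeval y P = 0) → ∀ y ∈ translate x a,
              1 / ((A : ℝ) * ((D : ℝ) * (bound N : ℝ) ^ n) ^ A) ≤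
                ∑ i, (P.degreeOf i : ℝ) * NumberField.absLogHeight₁ (y i)) ∧
            (a = 0 →
              (1 / ((A : ℝ) * ((D : ℝ) * (bound N : ℝ) ^ n) ^ A) / n) ^ n ≤
                (∏ i, NumberField.absLogHeight₁ (x i)) *
                  (Module.finrank L (IntermediateField.adjoin L (Set.range x)) : ℝ)) := by
  intro K hK Γ hΓ
  obtain ⟨A, hA, hmain⟩ := main5 K hK Γ hΓ
  refine ⟨A, hA, ?_⟩
  intro n d N D E _ hE hD x a hx hind L hL
  have hD0 : 0 < D := lt_of_lt_of_le Module.finrank_pos hD
  have hb : bound N = B2 N := rfl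
  have hB0 : 0 < bound N := by rw [hb]; exact B2_pos N
  have hc : 1 / ((A : ℝ) * ((D : ℝ) * (bound N : ℝ) ^ n) ^ A) = lowc A (D * B2 N ^ n) := by
    rw [lowc, hb, one_div]
    push_cast
    rfl
  have hc0 : 0 < 1 / ((A : ℝ) * ((D : ℝ) * (bound N : ℝ) ^ n) ^ A) := by
    have h1 : (0 : ℝ) < A := by exact_mod_cast hA
    have h2 : (0 : ℝ) < D := by exact_mod_cast hD0
    have h3 : (0 : ℝ) < bound N := by exact_mod_cast hB0
    positivity
  have hht : ∀ w : AlgebraicClosure ℚ, NumberField.absLogHeight₁ w = ht w := fun w =>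
    Pool.Agent.H58P.absLogHeight₁_eq _
  simp only [hht]
  have key : ∀ P : MvPolynomial (Fin n) L, P ≠ 0 →
      (∀ y ∈ translate x a, MvPolynomial.aeval y P = 0) → ∀ y ∈ translate x a,
      1 / ((A : ℝ) * ((D : ℝ) * (bound N : ℝ) ^ n) ^ A) ≤ ∑ i, (P.degreeOf i : ℝ) * ht (y i) := by
    intro P hP hPV y hy
    obtain ⟨t, hyt⟩ := hy
    have hL' : L ≤ (K ⊔ divF Γ : GF) := hL
    let ι : L →+* (K ⊔ divF Γ : GF) := (IntermediateField.inclusion hL').toRingHom
    have hι : Function.Injective ι := ι.injective
    have h1 := hmain n d N D E hE hD x a (fun i => by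
      rcases hx i with h | ⟨hai, k, l, θ, θ', hkl, hθ, hθ', hQ, hquot⟩
      · exact Or.inl h
      · exact Or.inr ⟨hai, k, l, θ, θ', hkl, hθ, hθ', by rw [hquot, div_mul_cancel₀ _ hQ], hQ⟩)
      hind.1 hind.2 (MvPolynomial.map ι P) (by
        intro h0
        exact hP ((MvPolynomial.map_injective ι hι) (by rw [h0, map_zero]))) (by
        intro s
        rw [← hPV (fun i => x i * ∏ j, (s j : AlgebraicClosure ℚ) ^ a i j) ⟨s, fun _ => rfl⟩,
          MvPolynomial.aeval_def, MvPolynomial.aeval_def, MvPolynomial.eval₂_map]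
        rfl) t
    rw [hc]
    have h2 : ∀ i, (MvPolynomial.map ι P).degreeOf i = P.degreeOf i := by
      intro i
      rw [MvPolynomial.degreeOf_eq_sup, MvPolynomial.degreeOf_eq_sup,
        MvPolynomial.support_map_of_injective P hι]
    simp only [h2] at h1
    refine h1.trans (le_of_eq (Finset.sum_congr rfl fun i _ => ?_))
    rw [hyt i]
  refine ⟨key, fun ha => product_bound L x _ hc0 fun P hP hPx => ?_⟩
  have hV : ∀ y ∈ translate x a, y = x := by
    rintro y ⟨t, hyt⟩
    funext i
    rw [hyt i, ha]
    simp
  have hxV : x ∈ translate x a := ⟨fun _ => 1, fun i => by rw [ha]; simp⟩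
  exact key P hP (fun y hy => by rw [hV y hy]; exact hPx) x hxV

end Pool.Agent.Results.MP_187c26_nt.PointsOfRadicals
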